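import Pool.Agent.helper97.NA.SpecE

set_option autoImplicit false

namespace Pool.Agent.NAB

open Pool.Agent.helper58.DC Pool.Agent.DI Pool.Agent.GR Pool.Agent.OB Pool.Agent.DR Pool.Agent.FI Pool.Agent.FI3 Pool.Agent.FI4 Pool.Agent.FI4I Pool.Agent.FI4E Pool.Agent.LE Pool.Agent.L5

theorem XLG_nz {G : Type} [Group G] {n : G} {Q : Subgroup G} : n ∈ nz Q ↔ cjS n Q = Q :=
  (cj_nz (D := Q) (g := n)).symm

theorem XLG_mem {G : Type} [Group G] {C : Finset (Subgroup G)} {n : G} :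
    n ∈ nrm C ↔ ∀ Q ∈ C, n ∈ nz Q := by
  simp [nrm, Subgroup.mem_iInf]

theorem XLG_set {G : Type} [Group G] (C : Finset (Subgroup G)) (α : MulAut G) (g₀ : G)
    (h₀ : FxC (al α g₀) C) :
    {g : G | FxC (al α g) C} = (fun n => n * g₀) '' (nrm C : Set G) := by
  ext g
  constructor
  · intro hg
    refine ⟨g * g₀⁻¹, ?_, by simp⟩
    refine XLG_mem.mpr fun Q hQ => XLG_nz.mpr ?_
    have h1 : am (al α g) Q = Q := hg Q hQ
    have h2 : al α g = al (al α g₀) (g * g₀⁻¹) := by rw [al_al]; simp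
    rw [h2, am_al, h₀ Q hQ] at h1
    exact h1
  · rintro ⟨n, hn, rfl⟩
    intro Q hQ
    have h2 : al α (n * g₀) = al (al α g₀) n := by rw [al_al]
    change am (al α (n * g₀)) Q = Q
    rw [h2, am_al, h₀ Q hQ]
    exact XLG_nz.mp (XLG_mem.mp hn Q hQ)

theorem XLG (hXLC : XLC_stmt) (hTSI : TSI_stmt) (hBAA : BAA_stmt) (hOUP5 : OUP5_stmt) : XLG_stmt := by
  intro p e m n M hS hme G _ _ χ hχ z x hU C hMid α hα
  by_cases h0 : ∃ g₀, FxC (al α g₀) C
  · obtain ⟨g₀, h₀⟩ := h0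
    have hinj : Set.InjOn (fun n : G => n * g₀) (nrm C : Set G) := fun a _ b _ h => mul_right_cancel h
    rw [XLG_set C α g₀ h₀, finsum_mem_image hinj, finsum_mem_image hinj]
    have hal : ∀ n : G, al α (n * g₀) = al (al α g₀) n := fun n => by rw [al_al]
    have hN : am (al α g₀) (nrm C) = nrm C :=
      (hBAA G M p (al α g₀) ⊤ ⊤ ⊤ χ χ χ).2.2.2.2.2.2.2.1 C h₀
    obtain ⟨y, hy⟩ := (hOUP5 G α n).1 hα g₀
    have hyN : y ∈ nrm C := (hOUP5 G (al α g₀) n).2.1 y hy C h₀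
    have hxlc := hXLC p e m n M hS hme G χ hχ z x hU (nrm C) hMid (al α g₀) hN ⟨y, hyN, hy⟩
    have hsub : Blk M χ (nrm C) ⊆ IrrOn (nrm C) := fun ψ hψ => hψ.1
    have hL : ∑ᶠ n ∈ (nrm C : Set G), tL p M χ (nrm C) (al α (n * g₀)) =
        (Nat.card (nrm C) : ℂ) * tL p M χ (nrm C) (al α g₀) := by
      have e1 : ∑ᶠ n ∈ (nrm C : Set G), tL p M χ (nrm C) (al α (n * g₀)) =
          ∑ᶠ n ∈ (nrm C : Set G), tL p M χ (nrm C) (al α g₀) := by
        refine finsum_mem_congr rfl fun n hn => ?_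
        rw [hal]
        exact (hTSI p G (nrm C) (al α g₀) hN n hn).2 _ hsub
      rw [e1, finsum_mem_eq_finite_toFinset_sum _ (Set.toFinite _), Finset.sum_const, nsmul_eq_mul,
        ← Set.ncard_eq_toFinset_card _ (Set.toFinite _)]
      rfl
    rw [hL, hxlc]
    refine finsum_mem_congr rfl fun n hn => ?_
    rw [hal]
  · have he : {g : G | FxC (al α g) C} = ∅ := by
      ext g
      simp only [Set.mem_empty_iff_false, iff_false]
      exact fun h => h0 ⟨g, h⟩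
    rw [he, finsum_mem_empty, finsum_mem_empty]

end Pool.Agent.NAB
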